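import Mathlib

open MeasureTheory Measure Set Filter Topology
open scoped ENNReal NNReal Pointwise

namespace Pool.Agent.Results.MP_a80f1a_gt.Octahedron

/-- `ℝ³` with Lebesgue measure -/
abbrev V3 : Type := Fin 3 → ℝ

/-- the `ℓ¹` norm -/
def N (x : V3) : ℝ := |x 0| + |x 1| + |x 2|

/-- the octahedron with centre `c` and radius `t` -/
def oct (c : V3) (t : ℝ) : Set V3 := {x | N (x - c) ≤ t}

lemma volume_oct (c : V3) (t : ℝ) (ht : 0 ≤ t) :
    volume (oct c t) = ENNReal.ofReal (4 / 3 * t ^ 3) := by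
  have h1 : oct c t = (fun x => x - c) ⁻¹' oct 0 t := by
    ext x; simp [oct]
  have h2 : (fun x : V3 => x - c) = fun x => x + (-c) := by
    ext x; simp [sub_eq_add_neg]
  rw [h1, h2, measure_preimage_add_right]
  have h3 := MeasureTheory.volume_sum_rpow_le (ι := Fin 3) (p := 1) le_rfl t
  have h4 : {x : Fin 3 → ℝ | (∑ i, |x i| ^ (1 : ℝ)) ^ (1 / (1 : ℝ)) ≤ t} = oct 0 t := by
    ext x
    simp [oct, N, Fin.sum_univ_three]
  rw [h4] at h3
  rw [h3]
  have g1 : Real.Gamma (1 / 1 + 1) = 1 := by norm_num [Real.Gamma_two]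
  have g2 : Real.Gamma ((Fintype.card (Fin 3) : ℝ) / 1 + 1) = 6 := by
    have : ((Fintype.card (Fin 3) : ℝ) / 1 + 1) = ((3 : ℕ) : ℝ) + 1 := by simp
    rw [this, Real.Gamma_nat_eq_factorial]
    norm_num [Nat.factorial]
  rw [g1, g2, Fintype.card_fin, ← ENNReal.ofReal_pow ht, ← ENNReal.ofReal_mul (by positivity)]
  congr 1
  ring

lemma real_oct (c : V3) (t : ℝ) (ht : 0 ≤ t) : volume.real (oct c t) = 4 / 3 * t ^ 3 := by
  rw [Measure.real, volume_oct c t ht, ENNReal.toReal_ofReal (by positivity)]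

lemma N_cont : Continuous N := by unfold N; fun_prop

lemma oct_meas (c : V3) (t : ℝ) : MeasurableSet (oct c t) :=
  (isClosed_le (N_cont.comp (by fun_prop)) continuous_const).measurableSet

lemma oct_fin (c : V3) (t : ℝ) : volume (oct c t) ≠ ∞ := by
  have : oct c t ⊆ oct c (max t 0) := by
    intro x hx
    have hx' : N (x - c) ≤ t := hx
    exact hx'.trans (le_max_left _ _)
  exact ((measure_mono this).trans_lt (by
    rw [volume_oct _ _ (le_max_right _ _)]; exact ENNReal.ofReal_lt_top)).ne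

lemma fin3 (a b c i : Fin 3) (h1 : a ≠ b) (h2 : b ≠ c) (h3 : a ≠ c) (h4 : i ≠ a) (h5 : i ≠ b) :
    i = c := by omega

/-- The sheared box. -/
def shear (a b c : Fin 3) (s δ : ℝ) : Set V3 := {x | |x c| ≤ δ ∧ |x b - s * x a| ≤ δ ∧ |x a| ≤ 3}

lemma shear_vol (a b c : Fin 3) (hab : a ≠ b) (hbc : b ≠ c) (hac : a ≠ c) (s δ : ℝ) (hδ : 0 ≤ δ) :
    volume (shear a b c s δ) = ENNReal.ofReal (24 * δ ^ 2) := by
  set T : Matrix.TransvectionStruct (Fin 3) ℝ := ⟨b, a, hab.symm, -s⟩ with hT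
  have hL : ∀ x : V3, ∀ i, (Matrix.toLin' T.toMatrix x) i = x i + (if i = b then -s * x a else 0) := by
    intro x i
    rw [Matrix.toLin'_apply, hT, Matrix.TransvectionStruct.toMatrix_mk, Matrix.transvection,
      Matrix.add_mulVec, Matrix.one_mulVec, Matrix.single_mulVec]
    simp only [Pi.add_apply, Function.update_apply, Pi.zero_apply]
  set Q : Fin 3 → Set ℝ := fun i => if i = a then Icc (-3) 3 else Icc (-δ) δ with hQ
  have hset : shear a b c s δ = Matrix.toLin' T.toMatrix ⁻¹' (Set.pi univ Q) := by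
    ext x
    simp only [Set.mem_preimage, Set.mem_pi, Set.mem_univ, true_imp_iff, hL, hQ]
    constructor
    · rintro ⟨h1, h2, h3⟩ i
      by_cases hia : i = a
      · subst hia
        simp only [hab, if_true, if_false, add_zero]
        exact abs_le.1 h3
      · by_cases hib : i = b
        · subst hib
          simp only [hia, if_true, if_false]
          have := abs_le.1 h2
          constructor <;> linarith [this.1, this.2]
        · have hic : i = c := fin3 a b c i hab hbc hac hia hib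
          subst hic
          simp only [hia, hib, if_false, add_zero]
          exact abs_le.1 h1
    · intro h
      refine ⟨?_, ?_, ?_⟩
      · have := h c
        simp only [hac.symm, hbc.symm, if_false, add_zero] at this
        exact abs_le.2 this
      · have := h b
        simp only [hab.symm, if_true, if_false] at this
        rw [abs_le]
        constructor <;> linarith [this.1, this.2]
      · have := h a
        simp only [hab, if_true, if_false, add_zero] at this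
        exact abs_le.2 this
  have hQm : MeasurableSet (Set.pi univ Q) := by
    apply MeasurableSet.univ_pi
    intro i
    simp only [hQ]
    split_ifs <;> exact measurableSet_Icc
  rw [hset, (Real.volume_preserving_transvectionStruct T).measure_preimage hQm.nullMeasurableSet,
    volume_pi_pi]
  have hQv : ∀ i, volume (Q i) = if i = a then ENNReal.ofReal 6 else ENNReal.ofReal (2 * δ) := by
    intro i
    simp only [hQ]
    split_ifs
    · rw [Real.volume_Icc]; norm_num
    · rw [Real.volume_Icc]; congr 1; ring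
  simp only [hQv]
  rw [Fin.prod_univ_three]
  have : ENNReal.ofReal (24 * δ ^ 2) =
      ENNReal.ofReal 6 * ENNReal.ofReal (2 * δ) * ENNReal.ofReal (2 * δ) := by
    rw [← ENNReal.ofReal_mul (by norm_num), ← ENNReal.ofReal_mul (by positivity)]
    congr 1; ring
  rw [this]
  fin_cases a <;> simp <;> ring

/-- the seven centres, the origin excluded -/
def ctr : Fin 6 → V3 := ![![1, 0, 0], ![-1, 0, 0], ![0, 1, 0], ![0, -1, 0], ![0, 0, 1], ![0, 0, -1]]

lemma adj_real (x y z δ σ τ : ℝ) (hσ : σ = 1 ∨ σ = -1) (hτ : τ = 1 ∨ τ = -1) (hδ : δ ≤ 1)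
    (h1 : |x - σ| + |y| + |z| ≤ 1 + δ) (h2 : |x| + |y - τ| + |z| ≤ 1 + δ) :
    |z| ≤ δ ∧ |y - σ * τ * x| ≤ δ ∧ |x| ≤ 3 := by
  have a1 := abs_nonneg z
  have a2 := abs_nonneg y
  have a3 := abs_nonneg (y - τ)
  rcases hσ with rfl | rfl <;> rcases hτ with rfl | rfl
  · have b1 := neg_le_abs (x - 1); have b2 := neg_le_abs (y - 1)
    have b3 := le_abs_self x; have b4 := le_abs_self y
    refine ⟨by linarith, ?_, by linarith⟩
    rw [abs_le]; constructor <;> linarith
  · have b1 := neg_le_abs (x - 1); have b2 := le_abs_self (y - -1)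
    have b3 := le_abs_self x; have b4 := neg_le_abs y
    refine ⟨by linarith, ?_, by linarith⟩
    rw [abs_le]; constructor <;> linarith
  · have b1 := le_abs_self (x - -1); have b2 := neg_le_abs (y - 1)
    have b3 := neg_le_abs x; have b4 := le_abs_self y
    refine ⟨by linarith, ?_, by linarith⟩
    rw [abs_le]; constructor <;> linarith
  · have b1 := le_abs_self (x - -1); have b2 := le_abs_self (y - -1)
    have b3 := neg_le_abs x; have b4 := neg_le_abs y
    refine ⟨by linarith, ?_, by linarith⟩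
    rw [abs_le]; constructor <;> linarith

lemma opp_real (x y z δ : ℝ) (hδ : δ ≤ 1)
    (h1 : |x - 1| + |y| + |z| ≤ 1 + δ) (h2 : |x - -1| + |y| + |z| ≤ 1 + δ) :
    |z| ≤ δ ∧ |y - 1 * x| ≤ δ ∧ |x| ≤ 3 := by
  have a1 := abs_nonneg z
  have a2 := abs_nonneg y
  have b1 := neg_le_abs (x - 1); have b2 := le_abs_self (x - -1)
  have b3 := le_abs_self y; have b4 := neg_le_abs y
  have hx : |x| + |y| + |z| ≤ δ := by
    rcases abs_cases x with ⟨h, _⟩ | ⟨h, _⟩ <;> rw [h] <;> linarith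
  have a3 := abs_nonneg x
  refine ⟨by linarith, ?_, by linarith⟩
  have b5 := le_abs_self x; have b6 := neg_le_abs x
  rw [abs_le]; constructor <;> linarith

lemma pair_sub (j k : Fin 6) (hjk : j < k) (δ : ℝ) (hδ : δ ≤ 1) :
    ∃ (a b c : Fin 3) (s : ℝ), a ≠ b ∧ b ≠ c ∧ a ≠ c ∧
      oct (ctr j) (1 + δ) ∩ oct (ctr k) (1 + δ) ⊆ shear a b c s δ := by
  have hopp : ∀ (a b c : Fin 3), (∀ x : V3, N (x - ctr j) = |x a - 1| + |x b| + |x c|) →
      (∀ x : V3, N (x - ctr k) = |x a - -1| + |x b| + |x c|) →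
      oct (ctr j) (1 + δ) ∩ oct (ctr k) (1 + δ) ⊆ shear a b c 1 δ := by
    rintro a b c h1 h2 x ⟨hx1, hx2⟩
    simp only [oct, Set.mem_ofPred_eq, h1, h2] at hx1 hx2
    exact opp_real _ _ _ _ hδ hx1 hx2
  have hadj : ∀ (a b c : Fin 3) (σ τ : ℝ), (σ = 1 ∨ σ = -1) → (τ = 1 ∨ τ = -1) →
      (∀ x : V3, N (x - ctr j) = |x a - σ| + |x b| + |x c|) →
      (∀ x : V3, N (x - ctr k) = |x a| + |x b - τ| + |x c|) →
      oct (ctr j) (1 + δ) ∩ oct (ctr k) (1 + δ) ⊆ shear a b c (σ * τ) δ := by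
    rintro a b c σ τ hσ hτ h1 h2 x ⟨hx1, hx2⟩
    simp only [oct, Set.mem_ofPred_eq, h1, h2] at hx1 hx2
    exact adj_real _ _ _ _ _ _ hσ hτ hδ hx1 hx2
  fin_cases j <;> fin_cases k <;> first
    | (exfalso; revert hjk; decide)
    | (refine ⟨0, 1, 2, _, by decide, by decide, by decide, hopp 0 1 2 ?_ ?_⟩ <;>
        (intro x; simp [N, ctr]; done))
    | (refine ⟨1, 0, 2, _, by decide, by decide, by decide, hopp 1 0 2 ?_ ?_⟩ <;>
        (intro x; simp [N, ctr]; ring; done))
    | (refine ⟨2, 0, 1, _, by decide, by decide, by decide, hopp 2 0 1 ?_ ?_⟩ <;>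
        (intro x; simp [N, ctr]; ring; done))
    | (refine ⟨0, 1, 2, _, by decide, by decide, by decide,
        hadj 0 1 2 1 1 (Or.inl rfl) (Or.inl rfl) ?_ ?_⟩ <;> (intro x; simp [N, ctr]; done))
    | (refine ⟨0, 1, 2, _, by decide, by decide, by decide,
        hadj 0 1 2 1 (-1) (Or.inl rfl) (Or.inr rfl) ?_ ?_⟩ <;> (intro x; simp [N, ctr]; done))
    | (refine ⟨0, 1, 2, _, by decide, by decide, by decide,
        hadj 0 1 2 (-1) 1 (Or.inr rfl) (Or.inl rfl) ?_ ?_⟩ <;> (intro x; simp [N, ctr]; done))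
    | (refine ⟨0, 1, 2, _, by decide, by decide, by decide,
        hadj 0 1 2 (-1) (-1) (Or.inr rfl) (Or.inr rfl) ?_ ?_⟩ <;> (intro x; simp [N, ctr]; done))
    | (refine ⟨0, 2, 1, _, by decide, by decide, by decide,
        hadj 0 2 1 1 1 (Or.inl rfl) (Or.inl rfl) ?_ ?_⟩ <;> (intro x; simp [N, ctr]; ring; done))
    | (refine ⟨0, 2, 1, _, by decide, by decide, by decide,
        hadj 0 2 1 1 (-1) (Or.inl rfl) (Or.inr rfl) ?_ ?_⟩ <;> (intro x; simp [N, ctr]; ring; done))
    | (refine ⟨0, 2, 1, _, by decide, by decide, by decide,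
        hadj 0 2 1 (-1) 1 (Or.inr rfl) (Or.inl rfl) ?_ ?_⟩ <;> (intro x; simp [N, ctr]; ring; done))
    | (refine ⟨0, 2, 1, _, by decide, by decide, by decide,
        hadj 0 2 1 (-1) (-1) (Or.inr rfl) (Or.inr rfl) ?_ ?_⟩ <;>
          (intro x; simp [N, ctr]; ring; done))
    | (refine ⟨1, 2, 0, _, by decide, by decide, by decide,
        hadj 1 2 0 1 1 (Or.inl rfl) (Or.inl rfl) ?_ ?_⟩ <;> (intro x; simp [N, ctr]; ring; done))
    | (refine ⟨1, 2, 0, _, by decide, by decide, by decide,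
        hadj 1 2 0 1 (-1) (Or.inl rfl) (Or.inr rfl) ?_ ?_⟩ <;> (intro x; simp [N, ctr]; ring; done))
    | (refine ⟨1, 2, 0, _, by decide, by decide, by decide,
        hadj 1 2 0 (-1) 1 (Or.inr rfl) (Or.inl rfl) ?_ ?_⟩ <;> (intro x; simp [N, ctr]; ring; done))
    | (refine ⟨1, 2, 0, _, by decide, by decide, by decide,
        hadj 1 2 0 (-1) (-1) (Or.inr rfl) (Or.inr rfl) ?_ ?_⟩ <;>
          (intro x; simp [N, ctr]; ring))


lemma mid_real (x y z t : ℝ) (s : ℝ) (hs : s = 1 ∨ s = -1) :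
    (|x| + |y| + |z| ≤ t ∧ |x - s| + |y| + |z| ≤ t) ↔ |x - s / 2| + |y| + |z| ≤ t - 1 / 2 := by
  rcases hs with rfl | rfl
  · rcases abs_cases x with ⟨h1, h1'⟩ | ⟨h1, h1'⟩ <;> rcases abs_cases (x - 1) with ⟨h2, h2'⟩ | ⟨h2, h2'⟩ <;>
    rcases abs_cases (x - 1 / 2) with ⟨h3, h3'⟩ | ⟨h3, h3'⟩ <;> rw [h1, h2, h3] <;>
    constructor <;> intro h <;> first | (obtain ⟨h4, h5⟩ := h; linarith) | (constructor <;> linarith)
  · rcases abs_cases x with ⟨h1, h1'⟩ | ⟨h1, h1'⟩ <;> rcases abs_cases (x - -1) with ⟨h2, h2'⟩ | ⟨h2, h2'⟩ <;>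
    rcases abs_cases (x - -1 / 2) with ⟨h3, h3'⟩ | ⟨h3, h3'⟩ <;> rw [h1, h2, h3] <;>
    constructor <;> intro h <;> first | (obtain ⟨h4, h5⟩ := h; linarith) | (constructor <;> linarith)

lemma mid (k : Fin 6) (t : ℝ) :
    oct 0 t ∩ oct (ctr k) t = oct ((1 / 2 : ℝ) • ctr k) (t - 1 / 2) := by
  ext x
  simp only [oct, Set.mem_inter_iff, Set.mem_ofPred_eq]
  have h1 := mid_real (x 0) (x 1) (x 2) t
  have h2 := mid_real (x 1) (x 0) (x 2) t
  have h3 := mid_real (x 2) (x 0) (x 1) t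
  fin_cases k
  · convert h1 1 (Or.inl rfl) using 2 <;> simp [N, ctr]
  · convert h1 (-1) (Or.inr rfl) using 2 <;> simp [N, ctr]; ring_nf
  · convert h2 1 (Or.inl rfl) using 2 <;> simp [N, ctr] <;> ring_nf
  · convert h2 (-1) (Or.inr rfl) using 2 <;> simp [N, ctr] <;> ring_nf
  · convert h3 1 (Or.inl rfl) using 2 <;> simp [N, ctr] <;> ring_nf
  · convert h3 (-1) (Or.inr rfl) using 2 <;> simp [N, ctr] <;> ring_nf


/-- finite unions -/
def pu (B : Set V3) (f : ℕ → Set V3) : ℕ → Set V3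
  | 0 => B
  | n + 1 => pu B f n ∪ f n

lemma pu_fin {B : Set V3} {f : ℕ → Set V3} (hB : volume B ≠ ∞) (hf : ∀ i, volume (f i) ≠ ∞)
    (n : ℕ) : volume (pu B f n) ≠ ∞ := by
  induction n with
  | zero => exact hB
  | succ n ih => exact (measure_union_lt_top ih.lt_top (hf n).lt_top).ne

lemma pu_inter (B : Set V3) (f : ℕ → Set V3) (g : Set V3) (n : ℕ) : volume.real (pu B f n ∩ g) ≤
      volume.real (B ∩ g) + ∑ j ∈ Finset.range n, volume.real (f j ∩ g) := by
  induction n with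
  | zero => simp [pu]
  | succ n ih =>
    rw [pu, union_inter_distrib_right, Finset.sum_range_succ]
    have := measureReal_union_le (μ := (volume : Measure V3)) (pu B f n ∩ g) (f n ∩ g)
    linarith

lemma pu_sub (B : Set V3) (f : ℕ → Set V3) (n : ℕ) : B ⊆ pu B f n := by
  induction n with
  | zero => exact Subset.rfl
  | succ n ih => exact ih.trans subset_union_left

lemma pu_upper {B : Set V3} {f : ℕ → Set V3} (hB : volume B ≠ ∞) (hf : ∀ i, volume (f i) ≠ ∞)
    (hfm : ∀ i, MeasurableSet (f i)) (n : ℕ) :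
    volume.real (pu B f n) ≤ volume.real B +
      ∑ i ∈ Finset.range n, (volume.real (f i) - volume.real (B ∩ f i)) := by
  induction n with
  | zero => simp [pu]
  | succ n ih =>
    rw [pu, Finset.sum_range_succ]
    have h1 := measureReal_union_add_inter (μ := (volume : Measure V3)) (s := pu B f n) (hfm n)
      (pu_fin hB hf n) (hf n)
    have h2 : volume.real (B ∩ f n) ≤ volume.real (pu B f n ∩ f n) :=
      measureReal_mono (inter_subset_inter_left _ (pu_sub B f n))
        ((measure_mono inter_subset_right).trans_lt (hf n).lt_top).ne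
    linarith

lemma pu_lower {B : Set V3} {f : ℕ → Set V3} (hB : volume B ≠ ∞) (hf : ∀ i, volume (f i) ≠ ∞)
    (hfm : ∀ i, MeasurableSet (f i)) (ε : ℝ) (hε : 0 ≤ ε) (n : ℕ)
    (hpair : ∀ i < n, ∀ j < i, volume.real (f j ∩ f i) ≤ ε) :
    volume.real B + ∑ i ∈ Finset.range n, (volume.real (f i) - volume.real (B ∩ f i)) -
      n * n * ε ≤ volume.real (pu B f n) := by
  induction n with
  | zero => simp [pu]
  | succ n ih =>
    have ih' := ih (fun i hi j hj => hpair i (by omega) j hj)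
    rw [pu, Finset.sum_range_succ]
    have h1 := measureReal_union_add_inter (μ := (volume : Measure V3)) (s := pu B f n) (hfm n)
      (pu_fin hB hf n) (hf n)
    have h2 := pu_inter B f (f n) n
    have h3 : ∑ j ∈ Finset.range n, volume.real (f j ∩ f n) ≤ n * ε := by
      calc ∑ j ∈ Finset.range n, volume.real (f j ∩ f n) ≤ ∑ j ∈ Finset.range n, ε :=
            Finset.sum_le_sum fun j hj => hpair n (by omega) j (Finset.mem_range.1 hj)
        _ = n * ε := by simp
    push_cast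
    have h4 : 0 ≤ (n : ℝ) * ε := by positivity
    nlinarith

/-- the family of the six outer octahedra -/
def fam (t : ℝ) (i : ℕ) : Set V3 := if h : i < 6 then oct (ctr ⟨i, h⟩) t else ∅

lemma fam_fin (t : ℝ) (i : ℕ) : volume (fam t i) ≠ ∞ := by
  unfold fam; split_ifs
  · exact oct_fin _ _
  · simp

lemma fam_meas (t : ℝ) (i : ℕ) : MeasurableSet (fam t i) := by
  unfold fam; split_ifs
  · exact oct_meas _ _
  · simp

/-- the union of the seven octahedra -/
def U (t : ℝ) : Set V3 := oct 0 t ∪ ⋃ k : Fin 6, oct (ctr k) t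

lemma U_eq (t : ℝ) : U t = pu (oct 0 t) (fam t) 6 := by
  ext x
  simp only [U, pu, fam, Set.mem_union, Set.mem_iUnion]
  simp only [Fin.exists_fin_succ]
  simp
  tauto

/-- the first-order volume -/
noncomputable def W (δ : ℝ) : ℝ := 28 / 3 * (1 + δ) ^ 3 - 8 * (1 / 2 + δ) ^ 3

lemma sum_fam (δ : ℝ) (hδ : 0 ≤ δ) : volume.real (oct 0 (1 + δ)) +
    ∑ i ∈ Finset.range 6, (volume.real (fam (1 + δ) i) -
      volume.real (oct 0 (1 + δ) ∩ fam (1 + δ) i)) = W δ := by
  have h1 : ∀ i ∈ Finset.range 6, volume.real (fam (1 + δ) i) -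
      volume.real (oct 0 (1 + δ) ∩ fam (1 + δ) i) =
      4 / 3 * (1 + δ) ^ 3 - 4 / 3 * (1 + δ - 1 / 2) ^ 3 := by
    intro i hi
    rw [Finset.mem_range] at hi
    simp only [fam, hi, dif_pos, mid]
    rw [real_oct _ _ (by linarith), real_oct _ _ (by linarith)]
  rw [Finset.sum_congr rfl h1, real_oct _ _ (by linarith), W]
  simp
  ring

lemma U_upper (δ : ℝ) (hδ : 0 ≤ δ) : volume.real (U (1 + δ)) ≤ W δ := by
  rw [U_eq, ← sum_fam δ hδ]
  exact pu_upper (oct_fin _ _) (fam_fin _) (fam_meas _) 6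

lemma U_lower (δ : ℝ) (hδ : 0 ≤ δ) (hδ1 : δ ≤ 1) : W δ - 864 * δ ^ 2 ≤ volume.real (U (1 + δ)) := by
  rw [U_eq, ← sum_fam δ hδ]
  have h := pu_lower (B := oct 0 (1 + δ)) (f := fam (1 + δ)) (oct_fin _ _) (fam_fin _) (fam_meas _)
    (24 * δ ^ 2) (by positivity) 6 (by
      intro i hi j hj
      have hj6 : j < 6 := by omega
      simp only [fam, hi, hj6, dif_pos]
      obtain ⟨a, b, c, s, hab, hbc, hac, hsub⟩ := pair_sub ⟨j, hj6⟩ ⟨i, hi⟩ hj δ hδ1
      have h1 : volume (shear a b c s δ) ≠ ∞ := by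
        rw [shear_vol a b c hab hbc hac s δ hδ]; exact ENNReal.ofReal_ne_top
      refine (measureReal_mono hsub h1).trans ?_
      rw [Measure.real, shear_vol a b c hab hbc hac s δ hδ, ENNReal.toReal_ofReal (by positivity)])
  refine le_trans (le_of_eq ?_) h
  push_cast
  ring

/-- `A ⊕ δK` compared with `A`: the quotient whose limit as `δ → 0+` is the `K`-surface area. -/
noncomputable def surfaceQuotient {d : ℕ} (K A : Set (Fin d → ℝ)) (δ : ℝ) : ℝ :=
  (volume.real (A + δ • K) - volume.real A) / δ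

/-- `s` is the `K`-surface area of `A`: the quotients converge to `s`, so that the lower and the
upper `K`-surface area both equal `s`. -/
def HasSurfaceArea {d : ℕ} (K A : Set (Fin d → ℝ)) (s : ℝ) : Prop :=
  Tendsto (surfaceQuotient K A) (𝓝[>] 0) (𝓝 s)

/-- `K(x₀; r) = x₀ + r (K - c)` -/
def body {d : ℕ} (K : Set (Fin d → ℝ)) (c x₀ : Fin d → ℝ) (r : ℝ) : Set (Fin d → ℝ) :=
  {x | ∃ y ∈ K, x = x₀ + r • (y - c)}

/-- the octahedron -/
def K₁ : Set V3 := oct 0 1

lemma N_add (x y : V3) : N (x + y) ≤ N x + N y := by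
  simp only [N, Pi.add_apply]
  have h0 := abs_add_le (x 0) (y 0)
  have h1 := abs_add_le (x 1) (y 1)
  have h2 := abs_add_le (x 2) (y 2)
  linarith

lemma N_smul (a : ℝ) (x : V3) : N (a • x) = |a| * N x := by
  simp only [N, Pi.smul_apply, smul_eq_mul, abs_mul]; ring

lemma K_convex : Convex ℝ K₁ := by
  intro x hx y hy a b ha hb hab
  simp only [K₁, oct, sub_zero, Set.mem_ofPred_eq] at *
  have h1 := N_add (a • x) (b • y)
  rw [N_smul, N_smul, abs_of_nonneg ha, abs_of_nonneg hb] at h1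
  nlinarith

lemma smul_K (t : ℝ) (ht : 0 < t) : t • K₁ = oct 0 t := by
  ext x
  rw [Set.mem_smul_set_iff_inv_smul_mem₀ ht.ne']
  simp only [K₁, oct, sub_zero, Set.mem_ofPred_eq, N_smul, abs_inv, abs_of_pos ht]
  rw [inv_mul_le_iff₀ ht, mul_one]

lemma add_K (c : V3) (t : ℝ) (ht : 0 < t) : {c} + t • K₁ = oct c t := by
  rw [smul_K t ht]
  ext x
  simp only [Set.singleton_add, Set.mem_image, oct, Set.mem_ofPred_eq, sub_zero]
  constructor
  · rintro ⟨y, hy, rfl⟩; simpa using hy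
  · intro h; exact ⟨x - c, h, by simp⟩

lemma centers_add (t : ℝ) (ht : 0 < t) : (({0} : Set V3) ∪ range ctr) + t • K₁ = U t := by
  rw [Set.union_add, add_K 0 t ht, U]
  congr 1
  rw [← Set.iUnion_singleton_eq_range, Set.iUnion_add]
  congr 1
  ext k : 1
  exact add_K _ t ht

/-- The Minkowski-sum conjecture fails for the octahedron in `ℝ³`. -/
theorem result : ∃ (d : ℕ) (K : Set (Fin d → ℝ)) (c : Fin d → ℝ) (r : ℝ) (x₀ : Fin d → ℝ)
    (n : ℕ) (x : Fin n → (Fin d → ℝ)) (s t : ℝ),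
    Bornology.IsBounded K ∧ Convex ℝ K ∧ (∀ y ∈ K, (2 : ℝ) • c - y ∈ K) ∧ 0 < r ∧ 1 ≤ n ∧
    (∀ i, x i ∈ body K c x₀ r) ∧
    HasSurfaceArea K (({x₀} ∪ range x) + r • K) s ∧
    HasSurfaceArea K (body K c x₀ (2 * r)) t ∧ t < s := by
  have hbody : ∀ r : ℝ, 0 < r → body K₁ 0 0 r = oct 0 r := by
    intro r hr
    rw [← smul_K r hr]
    ext y
    simp only [body, Set.mem_ofPred_eq, sub_zero, zero_add, Set.mem_smul_set]
    constructor
    · rintro ⟨k, hk, rfl⟩; exact ⟨k, hk, rfl⟩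
    · rintro ⟨k, hk, rfl⟩; exact ⟨k, hk, rfl⟩
  refine ⟨3, K₁, 0, 1, 0, 6, ctr, 22, 16, ?_, K_convex, ?_, one_pos, by norm_num, ?_, ?_, ?_,
    by norm_num⟩
  · rw [isBounded_iff_forall_norm_le]
    refine ⟨1, fun x hx => ?_⟩
    simp only [K₁, oct, sub_zero, Set.mem_ofPred_eq, N] at hx
    rw [pi_norm_le_iff_of_nonneg zero_le_one]
    intro i
    rw [Real.norm_eq_abs]
    have h0 := abs_nonneg (x 0)
    have h1 := abs_nonneg (x 1)
    have h2 := abs_nonneg (x 2)
    fin_cases i <;> simp <;> linarith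
  · intro y hy
    simp only [K₁, oct, sub_zero, Set.mem_ofPred_eq, N] at hy ⊢
    simpa using hy
  · intro i
    rw [hbody 1 one_pos]
    fin_cases i <;> simp [oct, N, ctr]
  · rw [centers_add 1 one_pos, HasSurfaceArea]
    have hq : ∀ δ : ℝ, 0 < δ → U 1 + δ • K₁ = U (1 + δ) := by
      intro δ hδ
      rw [← centers_add 1 one_pos, ← centers_add (1 + δ) (by linarith), add_assoc,
        K_convex.add_smul zero_le_one hδ.le]
    have h1 : volume.real (U 1) = 25 / 3 := by
      have a := U_upper 0 le_rfl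
      have b := U_lower 0 le_rfl zero_le_one
      simp only [add_zero, W] at a b
      norm_num at a b
      linarith
    have hup : ∀ᶠ δ in 𝓝[>] (0 : ℝ), surfaceQuotient K₁ (U 1) δ ≤ 22 + 16 * δ + 4 / 3 * δ ^ 2 := by
      filter_upwards [self_mem_nhdsWithin] with δ hδ
      have hδ : 0 < δ := hδ
      rw [surfaceQuotient, hq δ hδ, h1, div_le_iff₀ hδ]
      have := U_upper δ hδ.le
      rw [W] at this
      linarith
    have hlo : ∀ᶠ δ in 𝓝[>] (0 : ℝ), 22 + 16 * δ + 4 / 3 * δ ^ 2 - 864 * δ ≤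
        surfaceQuotient K₁ (U 1) δ := by
      filter_upwards [self_mem_nhdsWithin, mem_nhdsWithin_of_mem_nhds (Iic_mem_nhds one_pos)]
        with δ hδ hδ1
      have hδ : 0 < δ := hδ
      rw [surfaceQuotient, hq δ hδ, h1, le_div_iff₀ hδ]
      have := U_lower δ hδ.le hδ1
      rw [W] at this
      linarith
    have l1 : Tendsto (fun δ : ℝ => 22 + 16 * δ + 4 / 3 * δ ^ 2) (𝓝[>] 0) (𝓝 22) := by
      have : Continuous fun δ : ℝ => 22 + 16 * δ + 4 / 3 * δ ^ 2 := by fun_prop
      have := this.tendsto 0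
      simp only [mul_zero, add_zero, ne_eq, OfNat.ofNat_ne_zero, not_false_eq_true, zero_pow] at this
      exact this.mono_left nhdsWithin_le_nhds
    have l2 : Tendsto (fun δ : ℝ => 22 + 16 * δ + 4 / 3 * δ ^ 2 - 864 * δ) (𝓝[>] 0) (𝓝 22) := by
      have : Continuous fun δ : ℝ => 22 + 16 * δ + 4 / 3 * δ ^ 2 - 864 * δ := by fun_prop
      have := this.tendsto 0
      simp only [mul_zero, add_zero, sub_zero, ne_eq, OfNat.ofNat_ne_zero, not_false_eq_true,
        zero_pow] at this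
      exact this.mono_left nhdsWithin_le_nhds
    exact tendsto_of_tendsto_of_tendsto_of_le_of_le' l2 l1 hlo hup
  · rw [mul_one, hbody 2 two_pos, HasSurfaceArea]
    have hq : ∀ δ : ℝ, 0 < δ → oct 0 2 + δ • K₁ = oct 0 (2 + δ) := by
      intro δ hδ
      rw [← smul_K 2 two_pos, ← smul_K (2 + δ) (by linarith), K_convex.add_smul two_pos.le hδ.le]
    have heq : ∀ᶠ δ in 𝓝[>] (0 : ℝ), surfaceQuotient K₁ (oct 0 2) δ = 16 + 8 * δ + 4 / 3 * δ ^ 2 := by
      filter_upwards [self_mem_nhdsWithin] with δ hδ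
      have hδ : 0 < δ := hδ
      rw [surfaceQuotient, hq δ hδ, real_oct _ _ (by linarith), real_oct _ _ (by linarith)]
      field_simp
      ring
    have l1 : Tendsto (fun δ : ℝ => 16 + 8 * δ + 4 / 3 * δ ^ 2) (𝓝[>] 0) (𝓝 16) := by
      have : Continuous fun δ : ℝ => 16 + 8 * δ + 4 / 3 * δ ^ 2 := by fun_prop
      have := this.tendsto 0
      simp only [mul_zero, add_zero, ne_eq, OfNat.ofNat_ne_zero, not_false_eq_true, zero_pow] at this
      exact this.mono_left nhdsWithin_le_nhds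
    exact l1.congr' (heq.mono fun δ h => h.symm)

end Pool.Agent.Results.MP_a80f1a_gt.Octahedron
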